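import Mathlib

/-!
# MP_a21db2_an : a super Delta-point in the closure of the denting points
-/

namespace Pool.Agent.Results.MP_a21db2_an.DentingSuperDelta

open Filter Topology

section defs

variable {X : Type} [NormedAddCommGroup X] [NormedSpace ℝ X]

/-- The slice `{y ∈ B_X | f y > ‖f‖ - α}` of the closed unit ball. -/
def slice (f : StrongDual ℝ X) (α : ℝ) : Set X := {y | ‖y‖ ≤ 1 ∧ ‖f‖ - α < f y}

/-- `x` is a denting point of the closed unit ball. -/
def IsDenting (x : X) : Prop :=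
  ‖x‖ ≤ 1 ∧ ∀ ε > (0 : ℝ), ∃ f : StrongDual ℝ X, f ≠ 0 ∧ ∃ α > (0 : ℝ),
    x ∈ slice f α ∧ Metric.diam (slice f α) < ε

/-- `W` is a relatively weakly open subset of the closed unit ball. -/
def RelWeaklyOpen (W : Set X) : Prop :=
  ∃ O : Set (WeakSpace ℝ X), IsOpen O ∧ W = {y | ‖y‖ ≤ 1 ∧ toWeakSpace ℝ X y ∈ O}

/-- `x` is a super `Δ`-point. -/
def IsSuperDelta (x : X) : Prop :=
  ‖x‖ = 1 ∧ ∀ W : Set X, RelWeaklyOpen W → x ∈ W → IsLUB {d : ℝ | ∃ y ∈ W, d = ‖x - y‖} 2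

end defs

abbrev LI : Type := BoundedContinuousFunction ℕ ℝ

/-- The underlying vector space. -/
def Xt : Type := ℝ × LI

noncomputable instance : AddCommGroup Xt := inferInstanceAs (AddCommGroup (ℝ × LI))
noncomputable instance : Module ℝ Xt := inferInstanceAs (Module ℝ (ℝ × LI))

noncomputable def A (r : ℝ) (p : Xt) : ℝ := ‖p.2 - r • (1 : LI)‖ + ‖(⟨p.1, r⟩ : ℂ)‖

lemma A_nonneg (r : ℝ) (p : Xt) : 0 ≤ A r p := by unfold A; positivity

lemma fst_add (p q : Xt) : (p + q).1 = p.1 + q.1 := rfl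
lemma snd_add (p q : Xt) : (p + q).2 = p.2 + q.2 := rfl
lemma fst_smul (c : ℝ) (q : Xt) : (c • q).1 = c * q.1 := rfl
lemma snd_smul (c : ℝ) (q : Xt) : (c • q).2 = c • q.2 := rfl
lemma fst_sub (p q : Xt) : (p - q).1 = p.1 - q.1 := rfl
lemma snd_sub (p q : Xt) : (p - q).2 = p.2 - q.2 := rfl

lemma A_add (r s : ℝ) (p q : Xt) : A (r + s) (p + q) ≤ A r p + A s q := by
  unfold A
  have h1 : (p + q).2 - (r + s) • (1 : LI) = (p.2 - r • (1 : LI)) + (q.2 - s • (1 : LI)) := by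
    rw [snd_add, add_smul]; abel
  have h2 : (⟨(p + q).1, r + s⟩ : ℂ) = ⟨p.1, r⟩ + ⟨q.1, s⟩ := by
    apply Complex.ext
    · simp [fst_add]
    · simp
  rw [h1, h2]
  have h3 := norm_add_le (p.2 - r • (1 : LI)) (q.2 - s • (1 : LI))
  have h4 := norm_add_le (⟨p.1, r⟩ : ℂ) (⟨q.1, s⟩ : ℂ)
  linarith

lemma A_smul (c r : ℝ) (p : Xt) : A (c * r) (c • p) = |c| * A r p := by
  unfold A
  have h1 : (c • p).2 - (c * r) • (1 : LI) = c • (p.2 - r • (1 : LI)) := by
    rw [snd_smul, smul_sub, smul_smul]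
  have h2 : (⟨(c • p).1, c * r⟩ : ℂ) = c • (⟨p.1, r⟩ : ℂ) := by
    apply Complex.ext
    · simp [fst_smul]
    · simp
  rw [h1, h2, norm_smul, norm_smul, Real.norm_eq_abs]
  ring

lemma le_A (r : ℝ) (p : Xt) : |p.1| ≤ A r p ∧ ‖p.2‖ ≤ A r p := by
  unfold A
  have h1 := Complex.abs_re_le_norm (⟨p.1, r⟩ : ℂ)
  have h2 := Complex.abs_im_le_norm (⟨p.1, r⟩ : ℂ)
  simp only at h1 h2
  have h3 := norm_nonneg (p.2 - r • (1 : LI))
  have h4 : ‖p.2‖ ≤ ‖p.2 - r • (1 : LI)‖ + ‖r • (1 : LI)‖ := by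
    have := norm_add_le (p.2 - r • (1 : LI)) (r • (1 : LI))
    rwa [sub_add_cancel] at this
  rw [norm_smul, norm_one, mul_one, Real.norm_eq_abs] at h4
  constructor <;> linarith

lemma bddBelow (p : Xt) : BddBelow (Set.range fun r => A r p) :=
  ⟨0, by rintro _ ⟨r, rfl⟩; exact A_nonneg r p⟩

/-- The norm. -/
noncomputable def N (p : Xt) : ℝ := ⨅ r : ℝ, A r p

lemma N_le (r : ℝ) (p : Xt) : N p ≤ A r p := ciInf_le (bddBelow p) r

lemma le_N {c : ℝ} {p : Xt} (h : ∀ r, c ≤ A r p) : c ≤ N p := le_ciInf h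

lemma exists_of_lt {c : ℝ} {p : Xt} (h : N p < c) : ∃ r, A r p < c := exists_lt_of_ciInf_lt h

lemma N_nonneg (p : Xt) : 0 ≤ N p := le_N fun r => A_nonneg r p

lemma N_add (p q : Xt) : N (p + q) ≤ N p + N q := by
  have h1 : ∀ r, N (p + q) - A r p ≤ N q := fun r => le_N fun s => by
    have := (N_le (r + s) (p + q)).trans (A_add r s p q)
    linarith
  have h2 : N (p + q) - N q ≤ N p := le_N fun r => by linarith [h1 r]
  linarith

lemma N_smul_le (c : ℝ) (p : Xt) : N (c • p) ≤ |c| * N p := by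
  rcases eq_or_ne c 0 with rfl | hc
  · have h := N_le 0 ((0 : ℝ) • p)
    have h2 := A_smul 0 0 p
    rw [abs_zero, zero_mul, zero_mul] at h2
    rw [h2] at h
    simpa using h
  · have h0 : 0 < |c| := abs_pos.2 hc
    have h1 : N (c • p) / |c| ≤ N p := le_N fun r => by
      rw [div_le_iff₀ h0, mul_comm, ← A_smul]
      exact N_le _ _
    rwa [div_le_iff₀ h0, mul_comm] at h1

lemma N_smul (c : ℝ) (y : Xt) : N (c • y) = |c| * N y := by
  refine le_antisymm (N_smul_le c y) ?_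
  rcases eq_or_ne c 0 with rfl | hc
  · simp [N_nonneg]
  · have h := N_smul_le c⁻¹ (c • y)
    rw [smul_smul, inv_mul_cancel₀ hc, one_smul, abs_inv] at h
    have h2 : 0 < |c| := abs_pos.2 hc
    calc |c| * N y ≤ |c| * (|c|⁻¹ * N (c • y)) := by gcongr
      _ = N (c • y) := by field_simp

noncomputable instance : Norm Xt := ⟨N⟩

lemma norm_def (y : Xt) : ‖y‖ = N y := rfl

lemma fst_le_N (p : Xt) : |p.1| ≤ N p := le_N fun r => (le_A r p).1
lemma snd_le_N (p : Xt) : ‖p.2‖ ≤ N p := le_N fun r => (le_A r p).2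

lemma N_le_sum (p : Xt) : N p ≤ |p.1| + ‖p.2‖ := by
  refine (N_le 0 p).trans ?_
  unfold A
  rw [zero_smul, sub_zero]
  have : (⟨p.1, 0⟩ : ℂ) = (p.1 : ℂ) := by apply Complex.ext <;> simp
  rw [this, Complex.norm_real, Real.norm_eq_abs]
  linarith

lemma core : NormedSpace.Core ℝ Xt where
  norm_nonneg := N_nonneg
  norm_smul c y := N_smul c y
  norm_triangle x y := N_add x y
  norm_eq_zero_iff y := by
    constructor
    · intro h
      have h' : N y = 0 := h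
      have h1 := fst_le_N y
      have h2 := snd_le_N y
      rw [h'] at h1 h2
      exact Prod.ext (abs_nonpos_iff.1 h1) (norm_le_zero_iff.1 h2)
    · rintro rfl
      refine le_antisymm ((N_le_sum 0).trans ?_) (N_nonneg _)
      show |(0 : ℝ)| + ‖(0 : LI)‖ ≤ 0
      simp

noncomputable instance : NormedAddCommGroup Xt := NormedAddCommGroup.ofCore core
noncomputable instance : NormedSpace ℝ Xt := NormedSpace.ofCore core

/-! ### Completeness -/

abbrev E : Type := ℝ × LI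

noncomputable def toE : Xt ≃ₗ[ℝ] E := LinearEquiv.refl ℝ _

lemma toE_apply (y : Xt) : toE y = (y.1, y.2) := rfl

lemma norm_toE_le (y : Xt) : ‖toE y‖ ≤ 1 * ‖y‖ := by
  rw [toE_apply, Prod.norm_def, one_mul]
  exact max_le (fst_le_N y) (snd_le_N y)

lemma norm_symm_le (z : E) : ‖toE.symm z‖ ≤ 2 * ‖z‖ := by
  set y : Xt := toE.symm z with hy
  have h0 : |y.1| ≤ ‖z‖ := norm_fst_le z
  have h1 : ‖y.2‖ ≤ ‖z‖ := norm_snd_le z
  rw [norm_def]
  linarith [N_le_sum y]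

noncomputable def toEL : Xt ≃L[ℝ] E :=
  toE.toContinuousLinearEquivOfBounds 1 2 norm_toE_le norm_symm_le

instance : CompleteSpace Xt :=
  (completeSpace_congr (e := toEL.toEquiv) toEL.isUniformEmbedding).2 inferInstance


/-! ### The super Delta-point -/

/-- The unit vectors. -/
noncomputable def dl (n : ℕ) : LI :=
  BoundedContinuousFunction.ofNormedAddCommGroup (fun m => if m = n then (1 : ℝ) else 0)
    continuous_of_discreteTopology 1 (fun m => by split_ifs <;> simp)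

lemma dl_apply (n m : ℕ) : dl n m = if m = n then 1 else 0 := rfl

noncomputable def ee (n : ℕ) : Xt := (0, dl n)

/-- Signed sums of the unit vectors have norm at most one. -/
lemma norm_sum_ee_le (F : Finset ℕ) (s : ℕ → ℝ) (hs : ∀ n, |s n| ≤ 1) :
    ‖∑ n ∈ F, s n • ee n‖ ≤ 1 := by
  have h1 : (∑ n ∈ F, s n • ee n).1 = 0 := by
    have : (∑ n ∈ F, s n • ee n).1 = ∑ n ∈ F, (s n • ee n).1 :=
      map_sum (AddMonoidHom.fst ℝ LI) (fun n => s n • ee n) F
    rw [this]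
    refine Finset.sum_eq_zero fun n _ => ?_
    show s n * 0 = 0
    simp
  have h2 : (∑ n ∈ F, s n • ee n).2 = ∑ n ∈ F, s n • dl n :=
    map_sum (AddMonoidHom.snd ℝ LI) (fun n => s n • ee n) F
  rw [norm_def]
  refine (N_le_sum _).trans ?_
  rw [h1, abs_zero, zero_add, h2]
  refine (BoundedContinuousFunction.norm_le zero_le_one).2 fun m => ?_
  rw [BoundedContinuousFunction.sum_apply]
  simp only [BoundedContinuousFunction.coe_smul, dl_apply, smul_eq_mul, mul_ite, mul_one, mul_zero]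
  rw [Finset.sum_ite_eq]
  split_ifs
  · exact hs m
  · simp

lemma tendsto_f (f : StrongDual ℝ Xt) : Tendsto (fun n => f (ee n)) atTop (𝓝 0) := by
  have h1 : Summable fun n => |f (ee n)| := by
    refine summable_of_sum_le (c := ‖f‖) (fun _ => abs_nonneg _) fun F => ?_
    set s : ℕ → ℝ := fun n => if 0 ≤ f (ee n) then 1 else -1 with hs
    have h0 : ∀ n, |s n| ≤ 1 := by
      intro n
      simp only [hs]
      split_ifs <;> simp
    have h2 : ∑ n ∈ F, |f (ee n)| = f (∑ n ∈ F, s n • ee n) := by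
      rw [map_sum]
      refine Finset.sum_congr rfl fun n _ => ?_
      rw [map_smul, smul_eq_mul]
      simp only [hs]
      split_ifs with h
      · rw [abs_of_nonneg h, one_mul]
      · rw [abs_of_neg (not_le.1 h), neg_one_mul]
    rw [h2]
    calc f (∑ n ∈ F, s n • ee n) ≤ ‖f (∑ n ∈ F, s n • ee n)‖ := Real.le_norm_self _
      _ ≤ ‖f‖ * ‖∑ n ∈ F, s n • ee n‖ := f.le_opNorm _
      _ ≤ ‖f‖ * 1 := by
          gcongr
          exact norm_sum_ee_le F s h0
      _ = ‖f‖ := mul_one _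
  exact (tendsto_zero_iff_abs_tendsto_zero _).2 h1.tendsto_atTop_zero

noncomputable def x0 : Xt := (0, 1)

lemma norm_x0 : ‖x0‖ = 1 := by
  rw [norm_def]
  refine le_antisymm ((N_le_sum x0).trans ?_) ?_
  · show |(0 : ℝ)| + ‖(1 : LI)‖ ≤ 1
    simp
  · have := snd_le_N x0
    have h : ‖x0.2‖ = 1 := norm_one
    rwa [h] at this

noncomputable def yy (n : ℕ) : Xt := x0 + (-2 : ℝ) • ee n

lemma norm_yy (n : ℕ) : ‖yy n‖ ≤ 1 := by
  rw [norm_def]
  refine (N_le_sum _).trans ?_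
  have h1 : (yy n).1 = 0 := by
    show (0 : ℝ) + -2 * 0 = 0
    simp
  have h2 : (yy n).2 = 1 + (-2 : ℝ) • dl n := rfl
  rw [h1, h2, abs_zero, zero_add]
  refine (BoundedContinuousFunction.norm_le zero_le_one).2 fun m => ?_
  simp only [BoundedContinuousFunction.coe_add, BoundedContinuousFunction.coe_one,
    BoundedContinuousFunction.coe_smul, Pi.add_apply, Pi.one_apply, dl_apply, smul_eq_mul]
  split_ifs <;> norm_num

lemma norm_sub_yy (n : ℕ) : 2 ≤ ‖x0 - yy n‖ := by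
  have h1 : x0 - yy n = (2 : ℝ) • ee n := by
    unfold yy
    rw [neg_smul]
    abel
  rw [h1, norm_def]
  refine le_trans ?_ (snd_le_N _)
  have h2 : ((2 : ℝ) • ee n).2 = (2 : ℝ) • dl n := rfl
  rw [h2]
  have h3 := ((2 : ℝ) • dl n).norm_coe_le_norm n
  refine le_trans ?_ h3
  simp [dl_apply]

lemma tendsto_weak : Tendsto (fun n => toWeakSpace ℝ Xt (yy n)) atTop (𝓝 (toWeakSpace ℝ Xt x0)) := by
  rw [(show Topology.IsInducing (fun (x : WeakSpace ℝ Xt) (f : StrongDual ℝ Xt) =>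
    (topDualPairing ℝ Xt).flip x f) from ⟨rfl⟩).tendsto_nhds_iff]
  rw [tendsto_pi_nhds]
  intro f
  show Tendsto (fun n => f (yy n)) atTop (𝓝 (f x0))
  have h1 : ∀ n, f (yy n) = f x0 + (-2) * f (ee n) := fun n => by
    rw [yy, map_add, map_smul, smul_eq_mul]
  simp_rw [h1]
  have := ((tendsto_f f).const_mul (-2)).const_add (f x0)
  simpa using this

lemma superDelta : IsSuperDelta x0 := by
  refine ⟨norm_x0, fun W hW hx => ?_⟩
  obtain ⟨O, hO, rfl⟩ := hW
  refine ⟨?_, ?_⟩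
  · rintro d ⟨y, hy, rfl⟩
    have := norm_sub_le x0 y
    rw [norm_x0] at this
    linarith [hy.1]
  · intro b hb
    have h1 : ∀ᶠ n in atTop, toWeakSpace ℝ Xt (yy n) ∈ O := tendsto_weak (hO.mem_nhds hx.2)
    obtain ⟨n, hn⟩ := h1.exists
    exact (norm_sub_yy n).trans (hb ⟨yy n, ⟨norm_yy n, hn⟩, rfl⟩)

/-! ### The denting points -/

noncomputable def zz (s r : ℝ) : Xt := (s, r • 1)

/-- The exposing functional. -/
noncomputable def gg (s r : ℝ) : StrongDual ℝ Xt :=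
  LinearMap.mkContinuous
    { toFun := fun p : Xt => s * p.1 + r * p.2 0
      map_add' := fun p q => by
        rw [fst_add, snd_add, BoundedContinuousFunction.coe_add, Pi.add_apply]; ring
      map_smul' := fun c p => by
        show s * (c * p.1) + r * (c * p.2 0) = c * (s * p.1 + r * p.2 0)
        ring }
    (|s| + |r|)
    (fun p => by
      show |s * p.1 + r * p.2 0| ≤ _
      have h1 := abs_add_le (s * p.1) (r * p.2 0)
      rw [abs_mul, abs_mul] at h1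
      have h2 : |p.1| ≤ ‖p‖ := fst_le_N p
      have h3 : |p.2 0| ≤ ‖p‖ := (p.2.norm_coe_le_norm 0).trans (snd_le_N p)
      have h4 := abs_nonneg s
      have h5 := abs_nonneg r
      nlinarith)

lemma gg_apply (s r : ℝ) (p : Xt) : gg s r p = s * p.1 + r * p.2 0 := rfl

lemma inner_le (s r s' r' : ℝ) (h : s ^ 2 + r ^ 2 = 1) :
    s * s' + r * r' ≤ ‖(⟨s', r'⟩ : ℂ)‖ := by
  have h1 : ‖(⟨s', r'⟩ : ℂ)‖ ^ 2 = s' ^ 2 + r' ^ 2 := by
    rw [Complex.sq_norm, Complex.normSq_mk]; ring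
  refine (le_abs_self _).trans (abs_le_of_sq_le_sq ?_ (norm_nonneg _))
  rw [h1]
  nlinarith [sq_nonneg (s * r' - r * s')]

lemma gg_le (s r : ℝ) (hr : 0 ≤ r) (q : ℝ) (p : Xt) :
    gg s r p ≤ (s * p.1 + r * q) + r * ‖p.2 - q • (1 : LI)‖ := by
  rw [gg_apply]
  have h1 : p.2 0 - q ≤ ‖p.2 - q • (1 : LI)‖ := by
    have := (le_abs_self _).trans ((p.2 - q • (1 : LI)).norm_coe_le_norm 0)
    simpa using this
  nlinarith

lemma gg_le_N (s r : ℝ) (h : s ^ 2 + r ^ 2 = 1) (hr : 0 ≤ r) (_ : r ≤ 1) (p : Xt) :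
    gg s r p ≤ ‖p‖ := by
  rw [norm_def]
  refine le_N fun q => ?_
  have h1 := gg_le s r hr q p
  have h2 := inner_le s r p.1 q h
  have h3 := norm_nonneg (p.2 - q • (1 : LI))
  unfold A
  nlinarith

lemma gg_zz (s r : ℝ) (h : s ^ 2 + r ^ 2 = 1) : gg s r (zz s r) = 1 := by
  rw [gg_apply]
  show s * s + r * (r * 1) = 1
  linarith

lemma norm_zz_le (s r : ℝ) (h : s ^ 2 + r ^ 2 = 1) : ‖zz s r‖ ≤ 1 := by
  rw [norm_def]
  refine (N_le r _).trans ?_
  unfold A
  have h1 : (zz s r).2 - r • (1 : LI) = 0 := sub_self _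
  have h2 : ‖(⟨(zz s r).1, r⟩ : ℂ)‖ = 1 := by
    have : ‖(⟨(zz s r).1, r⟩ : ℂ)‖ ^ 2 = 1 := by
      rw [Complex.sq_norm, Complex.normSq_mk]
      show s * s + r * r = 1
      linarith
    nlinarith [norm_nonneg (⟨(zz s r).1, r⟩ : ℂ)]
  rw [h1, h2]
  simp

lemma norm_gg (s r : ℝ) (h : s ^ 2 + r ^ 2 = 1) (hr : 0 ≤ r) (hr1 : r ≤ 1) : ‖gg s r‖ = 1 := by
  refine le_antisymm ?_ ?_
  · refine (gg s r).opNorm_le_bound zero_le_one fun p => ?_
    rw [one_mul, Real.norm_eq_abs, abs_le]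
    refine ⟨?_, gg_le_N s r h hr hr1 p⟩
    have := gg_le_N s r h hr hr1 (-p)
    rw [map_neg, norm_neg] at this
    linarith
  · have h1 := (gg s r).le_opNorm (zz s r)
    rw [gg_zz s r h, norm_one] at h1
    have h2 := norm_zz_le s r h
    have h3 := norm_nonneg (gg s r)
    nlinarith

lemma slice_close (s r α : ℝ) (h : s ^ 2 + r ^ 2 = 1) (hr : 0 ≤ r) (hr1 : r < 1) (hα : 0 < α)
    (p : Xt) (hp : ‖p‖ ≤ 1) (hg : 1 - α < gg s r p) :
    ∃ a : ℝ, 0 ≤ a ∧ (1 - r) * a ≤ 2 * α ∧ ‖p - zz s r‖ ≤ a + Real.sqrt (4 * α + α ^ 2 + 2 * a) := by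
  obtain ⟨q, hq⟩ := exists_of_lt (p := p) (c := 1 + α) (by rw [← norm_def]; linarith)
  unfold A at hq
  set a := ‖p.2 - q • (1 : LI)‖ with ha
  set b := ‖(⟨p.1, q⟩ : ℂ)‖ with hb
  have ha0 : 0 ≤ a := norm_nonneg _
  have hb0 : 0 ≤ b := norm_nonneg _
  have h1 := gg_le s r hr q p
  have h2 := inner_le s r p.1 q h
  rw [← ha] at h1
  rw [← hb] at h2
  refine ⟨a, ha0, by nlinarith, ?_⟩
  rw [norm_def]
  refine (N_le (q - r) _).trans ?_
  unfold A
  have e0 : ∀ u : LI, u - r • (1 : LI) - (q - r) • (1 : LI) = u - q • (1 : LI) := by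
    intro u
    module
  have e1 : (p - zz s r).2 - (q - r) • (1 : LI) = p.2 - q • (1 : LI) := e0 p.2
  rw [e1, ← ha]
  gcongr
  apply Real.le_sqrt_of_sq_le
  rw [Complex.sq_norm, Complex.normSq_mk]
  have e2 : (p - zz s r).1 = p.1 - s := rfl
  rw [e2]
  have hb2 : b ^ 2 = p.1 ^ 2 + q ^ 2 := by
    rw [hb, Complex.sq_norm, Complex.normSq_mk]; ring
  have hb1 : b ≤ 1 + α := by linarith
  have hb3 : b ^ 2 ≤ (1 + α) ^ 2 := by gcongr
  nlinarith

lemma denting (s r : ℝ) (h : s ^ 2 + r ^ 2 = 1) (hr : 0 ≤ r) (hr1 : r < 1) :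
    IsDenting (zz s r) := by
  refine ⟨norm_zz_le s r h, fun ε hε => ?_⟩
  set k : ℝ := 1 - r with hk
  have hk0 : 0 < k := by linarith
  have hk1 : k ≤ 1 := by linarith
  set δ : ℝ := min (ε / 3) 1 with hδ
  have hδ0 : 0 < δ := lt_min (by linarith) one_pos
  have hδ1 : δ ≤ 1 := min_le_right _ _
  have hδ3 : δ ≤ ε / 3 := min_le_left _ _
  set α : ℝ := k * δ ^ 2 / 36 with hα
  have hα0 : 0 < α := by positivity
  have hng := norm_gg s r h hr hr1.le
  have hclose : ∀ p ∈ slice (gg s r) α, ‖p - zz s r‖ ≤ δ := by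
    rintro p ⟨hp1, hp2⟩
    rw [hng] at hp2
    obtain ⟨a, ha0, ha1, ha2⟩ := slice_close s r α h hr hr1 hα0 p hp1 hp2
    refine ha2.trans ?_
    have h1 : a ≤ δ ^ 2 / 18 := by
      rw [← hk, hα] at ha1
      have : k * a ≤ k * (δ ^ 2 / 18) := by linarith
      exact le_of_mul_le_mul_left this hk0
    have h2 : α ≤ δ ^ 2 / 36 := by
      rw [hα]
      nlinarith [sq_nonneg δ]
    have h3 : δ ^ 2 ≤ δ := by nlinarith
    have h4 : 4 * α + α ^ 2 + 2 * a ≤ (δ / 2) ^ 2 := by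
      have : α ^ 2 ≤ α := by nlinarith
      nlinarith
    have h5 : Real.sqrt (4 * α + α ^ 2 + 2 * a) ≤ δ / 2 := Real.sqrt_le_iff.2 ⟨by positivity, h4⟩
    nlinarith
  refine ⟨gg s r, ?_, α, hα0, ?_, ?_⟩
  · intro h0
    rw [h0, norm_zero] at hng
    exact zero_ne_one hng
  · refine ⟨norm_zz_le s r h, ?_⟩
    rw [hng, gg_zz s r h]
    linarith
  · refine (Metric.diam_le_of_forall_dist_le (C := 2 * δ) (by positivity) ?_).trans_lt (by linarith)
    intro p hp q hq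
    have h1 := dist_triangle p (zz s r) q
    rw [dist_eq_norm, dist_comm (zz s r) q, dist_eq_norm, dist_eq_norm] at h1
    rw [dist_eq_norm]
    linarith [hclose p hp, hclose q hq]

lemma mem_closure_denting : x0 ∈ closure {x : Xt | IsDenting x} := by
  rw [Metric.mem_closure_iff]
  intro ε hε
  set t : ℝ := min (ε / 8) (1 / 2) with ht
  have ht0 : 0 < t := lt_min (by linarith) (by norm_num)
  have ht1 : t ≤ 1 / 2 := min_le_right _ _
  have ht2 : t ≤ ε / 8 := min_le_left _ _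
  have hd : 0 < 1 + t ^ 2 := by positivity
  set s : ℝ := 2 * t / (1 + t ^ 2) with hs
  set r : ℝ := (1 - t ^ 2) / (1 + t ^ 2) with hr
  have h1 : s ^ 2 + r ^ 2 = 1 := by
    rw [hs, hr]; field_simp; ring
  have h2 : 0 ≤ r := by
    rw [hr]; apply div_nonneg _ hd.le; nlinarith
  have h3 : r < 1 := by
    rw [hr, div_lt_one hd]; nlinarith
  have h4 : s ≤ 2 * t := by
    rw [hs, div_le_iff₀ hd]; nlinarith [pow_pos ht0 3]
  have h4' : 0 ≤ s := by positivity
  have h5 : 1 - r ≤ 2 * t := by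
    have : 1 - r = 2 * t ^ 2 / (1 + t ^ 2) := by rw [hr]; field_simp; ring
    rw [this, div_le_iff₀ hd]; nlinarith [pow_pos ht0 3]
  refine ⟨zz s r, denting s r h1 h2 h3, ?_⟩
  rw [dist_comm, dist_eq_norm, norm_def]
  refine (N_le_sum _).trans_lt ?_
  have e1 : (zz s r - x0).1 = s := sub_zero s
  have e0 : r • (1 : LI) - 1 = (r - 1) • (1 : LI) := by module
  have e2 : (zz s r - x0).2 = (r - 1) • (1 : LI) := e0
  rw [e1, e2, norm_smul, norm_one, mul_one, Real.norm_eq_abs, abs_of_nonneg h4',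
    abs_of_nonpos (by linarith)]
  linarith

/-- There is a Banach space with a super `Δ`-point in the closure of the denting points. -/
theorem result : ∃ (X : Type) (_ : NormedAddCommGroup X) (_ : NormedSpace ℝ X)
    (_ : CompleteSpace X) (x : X), IsSuperDelta x ∧ x ∈ closure {z : X | IsDenting z} :=
  ⟨Xt, inferInstance, inferInstance, inferInstance, x0, superDelta, mem_closure_denting⟩

end Pool.Agent.Results.MP_a21db2_an.DentingSuperDelta
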